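import Pool.Agent.H23.FGL

namespace Pool.Agent.Results.MP_9d0418_gt.NotSigma

open Pool.Agent.H23

/-- `Cent T` in a semigroup. -/
def Cent {S : Type} [Semigroup S] (T : Set S) : Set S := {g | ∀ f ∈ T, f * g = g * f}

/-- Finite double centralizers. -/
def FDC (S : Type) [Semigroup S] : Prop := ∀ F : Set S, F.Finite → (Cent (Cent F)).Finite

/-- The semi-Zariski topology; products are computed in `S` with an external identity adjoined. -/
def semiZariski (S : Type) [Semigroup S] : TopologicalSpace S :=
  TopologicalSpace.generateFrom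
    ({U | ∃ a b c : WithOne S, U = {x : S | a * x * b ≠ c}} ∪
      {U | ∃ a b c d : WithOne S, U = {x : S | a * x * b ≠ c * x * d}})

/-- A countable union of discrete subspaces. -/
def SigmaDiscrete (X : Type) (t : TopologicalSpace X) : Prop :=
  ∃ D : ℕ → Set X, (⋃ n, D n) = Set.univ ∧
    ∀ n, @DiscreteTopology (D n) (TopologicalSpace.induced Subtype.val t)

theorem result : ∃ (G : Type) (_ : Group G), FDC G ∧ ¬ SigmaDiscrete G (semiZariski G) := by
  refine ⟨FGL.Gall, inferInstance, fun F hF => ?_, fun ⟨D, h1, h2⟩ => FGL.uncountable ?_⟩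
  · have := FGL.fdc _ le_rfl (fun _ h => h.1) hF.toFinset
    rw [hF.coe_toFinset] at this
    exact this
  let : TopologicalSpace FGL.V := ⊥
  have : DiscreteTopology FGL.V := ⟨rfl⟩
  let τ : TopologicalSpace FGL.Gall :=
    TopologicalSpace.induced (fun g => (g.1 : FGL.V → FGL.V)) inferInstance
  have sc : SecondCountableTopology FGL.Gall :=
    TopologicalSpace.secondCountableTopology_induced _ _ _
  have ev : ∀ v, Continuous fun g : FGL.Gall => g.1 v := fun v =>
    (continuous_apply v).comp continuous_induced_dom
  let un : WithOne FGL.Gall →* FGL.Gall := WithOne.lift (MulHom.id _)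
  have co : ∀ (a b : WithOne FGL.Gall) (x : FGL.Gall),
      a * x * b = ((un a * x * un b : FGL.Gall) : WithOne FGL.Gall) := by
    intro a b x
    induction a using WithOne.recOneCoe <;> induction b using WithOne.recOneCoe <;> simp [un]
  have op : ∀ f g : FGL.Gall → FGL.Gall, (∀ v, Continuous fun x => (f x).1 v) →
      (∀ v, Continuous fun x => (g x).1 v) → IsOpen {x | f x ≠ g x} := by
    intro f g hf hg
    convert isOpen_iUnion fun v => isOpen_ne_fun (hf v) (hg v)
    ext x
    simp only [Set.mem_ofPred_eq, Set.mem_iUnion]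
    exact ⟨fun h => not_forall.1 fun e => h (Subtype.ext (LinearEquiv.ext e)),
      fun ⟨v, hv⟩ e => hv (by rw [e])⟩
  have ct : ∀ a b : FGL.Gall, ∀ v, Continuous fun x : FGL.Gall => (a * x * b).1 v := fun a b v =>
    (continuous_of_discreteTopology (f := a.1)).comp (ev (b.1 v))
  have le : τ ≤ semiZariski _ := by
    refine le_generateFrom ?_
    rintro _ (⟨a, b, c, rfl⟩ | ⟨a, b, c, d, rfl⟩) <;> simp only [co]
    · induction c using WithOne.recOneCoe with
      | one => simp only [ne_eq, WithOne.coe_ne_one, not_false_eq_true, Set.ofPred_true, isOpen_univ]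
      | coe c => simpa only [ne_eq, WithOne.coe_inj] using op _ (fun _ => c) (ct _ _) fun _ => continuous_const
    · simpa only [ne_eq, WithOne.coe_inj] using op _ _ (ct _ _) (ct _ _)
  rw [← Set.countable_univ_iff, ← h1]
  refine Set.countable_iUnion fun n => ?_
  have : DiscreteTopology (D n) := ⟨le_bot_iff.1 ((induced_mono le).trans (h2 n).eq_bot.le)⟩
  exact TopologicalSpace.separableSpace_iff_countable.1 inferInstance

end Pool.Agent.Results.MP_9d0418_gt.NotSigma
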